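import Pool.Agent.P8H43.RK.App

/-!
# MP_52423f_nt: subgroups of a simple abelian variety whose p-adic closure has `ℤ_p`-rank one

`A` is a simple abelian variety over `ℚ` whose algebra of endomorphisms over `ℚ` is commutative.
-/

set_option autoImplicit false

open TensorProduct Module

namespace Pool.Agent.Results.MP_52423f_nt.RankOneClosures

open Pool.Agent.E8helper40.PC Pool.Agent.P8H43.RK

variable {p : ℕ} [Fact p.Prime] {n : ℕ}

/-- `L ⊗ ℚ`, the rational subspace of `A(ℚ) ⊗ ℚ` spanned by the subgroup `L ⊂ A(ℚ)` -/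
noncomputable def RatSpan (A : SimpleAbelianVariety p n) (L : AddSubgroup A.Pts) :
    Submodule ℚ (ℚ ⊗[ℤ] A.Pts) :=
  Submodule.span ℚ ((fun x : A.Pts => (1 : ℚ) ⊗ₜ[ℤ] x) '' L)

/-- `L' ⊗ ℚ = δ (L ⊗ ℚ)` for some nonzero endomorphism `δ` -/
def IsMultiple (A : SimpleAbelianVariety p n) (L L' : AddSubgroup A.Pts) : Prop :=
  ∃ δ : A.End, δ ≠ 0 ∧ ∀ v, v ∈ RatSpan A L' ↔ ∃ w ∈ RatSpan A L, v = δ • w

/-- `End⁰(A)` is commutative -/
def CommEnd (A : SimpleAbelianVariety p n) : Prop := ∀ x y : A.End, x * y = y * x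

/-- `L` is finitely generated and its closure has `ℤ_p`-rank one -/
def RankOne (A : SimpleAbelianVariety p n) (L : AddSubgroup A.Pts) : Prop :=
  L.FG ∧ HasZpRank p (closure A L) 1

/-- `L` is finitely generated, of rank `m ≤ n`, and the `ℤ_p`-rank of its closure is not `m`: an
exception to Q1 -/
def Exception (A : SimpleAbelianVariety p n) (L : AddSubgroup A.Pts) : Prop :=
  L.FG ∧ rank A L ≤ n ∧ ¬ HasZpRank p (closure A L) (rank A L)

/-- the finitely generated `L'` with the property `P` and the same span over `End⁰(A)` as `L` are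
those with `L' ⊗ ℚ = δ (L ⊗ ℚ)`, `δ ≠ 0` -/
def OneClass (A : SimpleAbelianVariety p n) (P : AddSubgroup A.Pts → Prop)
    (L : AddSubgroup A.Pts) : Prop :=
  ∀ L' : AddSubgroup A.Pts, L'.FG → (endSpan A L' = endSpan A L ∧ P L' ↔ IsMultiple A L L')

/-- `δ (L ⊗ ℚ) = δ' (L ⊗ ℚ)`, with `δ' ≠ 0`, only if `δ' = q δ` with a rational `q`, and conversely -/
def RationalStabiliser (A : SimpleAbelianVariety p n) (L : AddSubgroup A.Pts) : Prop :=
  ∀ δ δ' : A.End, δ' ≠ 0 → ((∀ v, (∃ w ∈ RatSpan A L, v = δ • w) ↔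
    ∃ w ∈ RatSpan A L, v = δ' • w) ↔ ∃ q : ℚ, δ' = q • δ)

/-- closures of rank one, in any dimension -/
def General (A : SimpleAbelianVariety p n) : Prop :=
  ∀ L : AddSubgroup A.Pts, RankOne A L → finrank A.End (endSpan A L) = rank A L ∧
    OneClass A (RankOne A) L ∧ RationalStabiliser A L

/-- the exceptions on a surface -/
def Surface (A : SimpleAbelianVariety p 2) : Prop :=
  (∀ L : AddSubgroup A.Pts, Exception A L ↔ RankOne A L ∧ rank A L = 2) ∧
  (∀ L : AddSubgroup A.Pts, Exception A L →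
    finrank A.End (endSpan A L) = 2 ∧ OneClass A (Exception A) L) ∧
  (finrank A.End (ℚ ⊗[ℤ] A.Pts) = 2 → ∀ L : AddSubgroup A.Pts, Exception A L →
    ∀ L' : AddSubgroup A.Pts, L'.FG → (Exception A L' ↔ IsMultiple A L L'))

theorem exception_two (A : SimpleAbelianVariety p 2) (hD : CommEnd A) (L : AddSubgroup A.Pts)
    (h : Exception A L) : rank A L = 2 ∧ HasZpRank p (closure A L) 1 := by
  obtain ⟨hL, h2, h3⟩ := h
  obtain ⟨r, hr, -, hle, hge⟩ := main A ⊤ (fun x _ y _ => hD x y) L hL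
  have h4 : r ≠ rank A L := fun h => h3 (h ▸ hr)
  have h5 : r ≠ 0 := by
    intro h0
    rw [h0, zero_mul] at hge
    omega
  have h6 : r = 1 := by omega
  refine ⟨by omega, ?_⟩
  rw [← h6]
  exact hr

theorem general (A : SimpleAbelianVariety p n) (hD : CommEnd A) : General A := by
  rintro L ⟨hL, h1⟩
  refine ⟨part1 A hD L hL h1, fun L' hL' => ⟨fun h => ?_, fun h => ?_⟩, fun δ δ' hδ' => ?_⟩
  · exact part2 A hD L L' hL hL' h1 h.2.2 h.1.symm
  · obtain ⟨δ, hδ, h2⟩ := h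
    obtain ⟨h3, h4, -⟩ := part3 A hD L L' hL hL' h1 δ hδ h2
    exact ⟨h4, hL', h3⟩
  · exact part3b A hD L hL h1 δ δ' hδ'

theorem exception_iff (A : SimpleAbelianVariety p 2) (hD : CommEnd A) (L : AddSubgroup A.Pts) :
    Exception A L ↔ RankOne A L ∧ rank A L = 2 := by
  constructor
  · intro h
    obtain ⟨h1, h2⟩ := exception_two A hD L h
    exact ⟨⟨h.1, h2⟩, h1⟩
  · rintro ⟨⟨hL, h2⟩, h1⟩
    refine ⟨hL, h1.le, fun h3 => ?_⟩
    obtain ⟨r, -, hu, -, -⟩ := main A ⊤ (fun x _ y _ => hD x y) L hL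
    have h4 := hu _ h3
    have h5 := hu 1 h2
    omega

theorem surface (A : SimpleAbelianVariety p 2) (hD : CommEnd A) : Surface A := by
  refine ⟨exception_iff A hD, fun L hex => ?_, fun hfin L hex L' hL' => ?_⟩
  · obtain ⟨⟨hL, h1⟩, hr⟩ := (exception_iff A hD L).1 hex
    obtain ⟨k1, k2, -⟩ := general A hD L ⟨hL, h1⟩
    refine ⟨by rw [k1, hr], fun L' hL' => ?_⟩
    rw [← k2 L' hL', exception_iff A hD L']
    constructor
    · rintro ⟨a1, a2, -⟩
      exact ⟨a1, a2⟩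
    · rintro ⟨a1, a2⟩
      obtain ⟨k3, -, -⟩ := general A hD L' a2
      refine ⟨a1, a2, ?_⟩
      rw [← k3, a1, k1, hr]
  · obtain ⟨⟨hL, h1⟩, hr⟩ := (exception_iff A hD L).1 hex
    obtain ⟨k1, k2, -⟩ := general A hD L ⟨hL, h1⟩
    have hfd : FiniteDimensional A.End (ℚ ⊗[ℤ] A.Pts) :=
      FiniteDimensional.of_finrank_pos (by rw [hfin]; norm_num)
    have htop : ∀ M : AddSubgroup A.Pts, M.FG → rank A M = 2 → HasZpRank p (closure A M) 1 →
        endSpan A M = ⊤ := by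
      intro M hM hM2 hM1
      refine Submodule.eq_top_of_finrank_eq ?_
      rw [hfin, part1 A hD M hM hM1, hM2]
    constructor
    · intro hex'
      obtain ⟨h2, hr'⟩ := (exception_iff A hD L').1 hex'
      exact (k2 L' hL').1 ⟨by rw [htop L hL hr h1, htop L' hL' hr' h2.2], h2⟩
    · intro h
      obtain ⟨a1, a2⟩ := (k2 L' hL').2 h
      rw [exception_iff A hD L']
      refine ⟨a2, ?_⟩
      rw [← part1 A hD L' hL' a2.2, a1, k1, hr]

theorem result (p : ℕ) [Fact p.Prime] :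
    (∀ (n : ℕ) (A : SimpleAbelianVariety p n), CommEnd A → General A) ∧
    (∀ A : SimpleAbelianVariety p 2, CommEnd A → Surface A) :=
  ⟨fun _ A hD => general A hD, fun A hD => surface A hD⟩

end Pool.Agent.Results.MP_52423f_nt.RankOneClosures
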